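import Mathlib

/-!
# Cohomology of log smooth projective schemes over a standard log point: definitions

`k` is a finite field with `q` elements, `s` the standard log point over `k`, `Γ` the Weil group of
the log point. The log etale cohomology `H^m(X)_ℓ` of a projective vertical log smooth scheme over `s`
is a Weil-Deligne representation `(ρ, N)` of `Γ`: the inertia group acts on `H^m(X)_ℓ` through
`g ↦ ρ(g) exp(t(g) N)`, where `ρ` is trivial on a subgroup of finite index of the inertia group,
and `N` is the logarithm of the monodromy.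
-/

namespace Pool.Agent.Y129.LT

/-- The Weil group `Γ` of the standard log point over the field with `q` elements, with a geometric
Frobenius element `Fr` and the character `c` by which `Γ` acts on `K(-1)`, `K = ℚ_ℓ`. -/
structure LogPoint (K Γ : Type) [Field K] [Group Γ] where
  q : ℕ
  one_lt : 1 < q
  Fr : Γ
  c : Γ →* Kˣ
  c_Fr : (c Fr : K) = q

/-- A Weil-Deligne representation `(ρ, N)` of `Γ` of finite dimension over `K`, `N : V → V(-1)` is
the monodromy operator. -/
structure WDRep {K Γ : Type} [Field K] [Group Γ] (s : LogPoint K Γ) where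
  V : Type
  grp : AddCommGroup V
  mod : Module K V
  finite : FiniteDimensional K V
  ρ : Γ → V → V
  N : V → V
  ρ_lin : ∀ g (a : K) x y, ρ g (a • x + y) = a • ρ g x + ρ g y
  N_lin : ∀ (a : K) x y, N (a • x + y) = a • N x + N y
  ρ_one : ∀ x, ρ 1 x = x
  ρ_mul : ∀ g h x, ρ (g * h) x = ρ g (ρ h x)
  nilpotent : ∃ n : ℕ, ∀ v, N^[n] v = 0
  N_ρ : ∀ g v, N (ρ g v) = (s.c g : K) • ρ g (N v)

attribute [instance] WDRep.grp WDRep.mod WDRep.finite

/-- The trivial representation `K`. -/
def WDRep.unit {K Γ : Type} [Field K] [Group Γ] (s : LogPoint K Γ) : WDRep s where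
  V := K
  grp := inferInstance
  mod := inferInstance
  finite := inferInstance
  ρ _ x := x
  N _ := 0
  ρ_lin _ _ _ _ := rfl
  N_lin a x y := by rw [smul_zero, add_zero]
  ρ_one _ := rfl
  ρ_mul _ _ _ := rfl
  nilpotent := ⟨1, fun _ => rfl⟩
  N_ρ g v := by rw [smul_zero]

/-- `P(Fr)` applied to the vector `v`. -/
noncomputable def WDRep.frob {K Γ : Type} [Field K] [Group Γ] {s : LogPoint K Γ} (A : WDRep s)
    (P : Polynomial ℚ) (v : A.V) : A.V :=
  P.sum fun i a => (a : K) • (A.ρ s.Fr)^[i] v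

/-- `Fr` has only the weight `w` on the `Γ`-orbit of the vector `v`: there is a nonzero polynomial `P`
with rational coefficients, whose complex roots `α` all satisfy `|α| ^ 2 = q ^ w`, and such that
`P(Fr)` kills all the vectors `ρ(g) v`. -/
def WDRep.HasWeight {K Γ : Type} [Field K] [Group Γ] {s : LogPoint K Γ} (A : WDRep s) (w : ℤ)
    (v : A.V) : Prop :=
  ∃ P : Polynomial ℚ, P ≠ 0 ∧ (∀ α : ℂ, Polynomial.aeval α P = 0 → ‖α‖ ^ 2 = (s.q : ℝ) ^ w) ∧
    ∀ g : Γ, A.frob P (A.ρ g v) = 0

/-- The eigenvalues of Frobenius are Weil numbers of integral weights. -/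
def WDRep.IsMixed {K Γ : Type} [Field K] [Group Γ] {s : LogPoint K Γ} (A : WDRep s) : Prop :=
  Submodule.span K {v | ∃ w, A.HasWeight w v} = ⊤

/-- The group `Γ` acts on `v` through the twist `r`, that is by the character `c ^ r`. -/
def WDRep.HasTwist {K Γ : Type} [Field K] [Group Γ] {s : LogPoint K Γ} (A : WDRep s) (r : ℤ)
    (v : A.V) : Prop :=
  ∀ g, A.ρ g v = ((s.c g ^ r : Kˣ) : K) • v

/-- `v` is in `V(r)^G`, the space of the invariants of the log fundamental group `G` of `s`: the
vectors killed by `N` on which `ρ` acts through the character `c ^ r`. -/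
def WDRep.IsInvariant {K Γ : Type} [Field K] [Group Γ] {s : LogPoint K Γ} (A : WDRep s) (r : ℤ)
    (v : A.V) : Prop :=
  A.N v = 0 ∧ A.HasTwist r v

/-- `N ^ k` is a bijection of the part of weight `m + k` onto the part of weight `m - k`, for all
`k`. -/
def WDRep.WeightMonodromy {K Γ : Type} [Field K] [Group Γ] {s : LogPoint K Γ} (A : WDRep s)
    (m : ℤ) : Prop :=
  ∀ k : ℕ, Set.BijOn A.N^[k] {v | A.HasWeight (m + k) v} {v | A.HasWeight (m - k) v}

/-- `S` is a nonzero stable subspace of the part of weight `a`. -/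
def WDRep.IsPart {K Γ : Type} [Field K] [Group Γ] {s : LogPoint K Γ} (A : WDRep s) (a : ℤ)
    (S : Submodule K A.V) : Prop :=
  S ≠ ⊥ ∧ (∀ x ∈ S, A.HasWeight a x) ∧ ∀ g, ∀ x ∈ S, A.ρ g x ∈ S

/-- The equivariant bilinear maps `A × B → Z(-d)`. -/
structure Pairing {K Γ : Type} [Field K] [Group Γ] {s : LogPoint K Γ} (d : ℤ) (A B Z : WDRep s)
    where
  map : A.V → B.V → Z.V
  map_left : ∀ (a : K) x x' y, map (a • x + x') y = a • map x y + map x' y
  map_right : ∀ (a : K) x y y', map x (a • y + y') = a • map x y + map x y'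
  map_ρ : ∀ g x y, map (A.ρ g x) (B.ρ g y) = ((s.c g ^ d : Kˣ) : K) • Z.ρ g (map x y)
  map_N : ∀ x y, map (A.N x) y + map x (B.N y) = Z.N (map x y)

/-- The pairing is perfect. -/
def Pairing.Perfect {K Γ : Type} [Field K] [Group Γ] {s : LogPoint K Γ} {d : ℤ} {A B Z : WDRep s}
    (β : Pairing d A B Z) : Prop :=
  (∀ x, (∀ y, β.map x y = 0) → x = 0) ∧ ∀ y, (∀ x, β.map x y = 0) → y = 0

/-- The subspace `A ⊗ S` of `Z`, for a subspace `S` of `B`: the span of the `β(y, x)`, `x ∈ S`. -/
def Pairing.tensor {K Γ : Type} [Field K] [Group Γ] {s : LogPoint K Γ} {d : ℤ} {A B Z : WDRep s}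
    (β : Pairing d A B Z) (S : Submodule K B.V) : Submodule K Z.V :=
  Submodule.span K {z | ∃ y, ∃ x ∈ S, β.map y x = z}

/-- `(A ⊗ S)(j)` contains a nonzero vector invariant under `ρ`. -/
def Pairing.HasInvariant {K Γ : Type} [Field K] [Group Γ] {s : LogPoint K Γ} {d : ℤ}
    {A B Z : WDRep s} (β : Pairing d A B Z) (S : Submodule K B.V) (j : ℤ) : Prop :=
  ∃ z ∈ β.tensor S, z ≠ 0 ∧ Z.HasTwist j z

/-- The basis `e 0`, `e 1` of `A = H^1(E)` for a log Tate curve `E`. -/
structure TateBasis {K Γ : Type} [Field K] [Group Γ] {s : LogPoint K Γ} (A : WDRep s) where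
  e : Module.Basis (Fin 2) K A.V
  ρ_e0 : ∀ g, A.ρ g (e 0) = e 0
  ρ_e1 : ∀ g, A.ρ g (e 1) = (s.c g : K) • e 1
  N_e0 : A.N (e 0) = 0
  N_e1 : A.N (e 1) = e 0

/-- The log `ℓ`-adic cohomology groups of the projective vertical log smooth schemes over the
standard log point `s` over the field with `q` elements, with products and Poincaré duality. -/
structure LogTheory {K Γ : Type} [Field K] [Group Γ] (s : LogPoint K Γ) where
  /-- The projective vertical log smooth schemes `X` over `s` (of pure dimension). -/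
  Obj : Type
  /-- The dimension over `s`. -/
  dim : Obj → ℕ
  /-- The product over `s`. -/
  prod : Obj → Obj → Obj
  /-- The cohomology groups `H^m(X)`. -/
  H : Obj → ℤ → WDRep s
  mixed : ∀ X m, (H X m).IsMixed
  /-- The exterior product `H^m(X) ⊗ H^n(Y) → H^{m+n}(X × Y)`. -/
  ext : ∀ X m Y n, Pairing 0 (H X m) (H Y n) (H (prod X Y) (m + n))
  /-- Poincaré duality `H^m(X) ⊗ H^{m'}(X) → K(-d)`, `m + m' = 2 d`, `d = dim X`. -/
  pair : ∀ X (m m' : ℤ), m + m' = 2 * (dim X : ℤ) →
    Pairing (dim X) (H X m) (H X m') (WDRep.unit s)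
  perfect : ∀ X m m' h, (pair X m m' h).Perfect
  /-- A class `z` in `H^{m+n}(X × Y)` acts as a correspondence and maps a class `x'` in `H^{m'}(X)`,
  `m + m' = 2 d`, `d = dim X`, to a class in `H^n(Y)(-d)`, the direct image of `z ∪ x'` (up to a sign
  which depends on `n` and `m'` only). -/
  act : ∀ X (m m' : ℤ) Y (n : ℤ), m + m' = 2 * (dim X : ℤ) →
    Pairing (dim X) (H (prod X Y) (m + n)) (H X m') (H Y n)
  act_ext : ∀ X m m' Y n h x y x', (act X m m' Y n h).map ((ext X m Y n).map x y) x' =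
    ((pair X m m' h).map x x' : K) • y

/-- Every nonzero stable subspace `S` of the part of weight `a` of `H^m(X)` is related to an
object `Y` with potentially good reduction: `N = 0` on `H^n(Y)`, and there is a nonzero invariant
element in `H^n(Y) ⊗ S(j)`, where `2 j = a + n`. -/
def LogTheory.GoodPartners {K Γ : Type} [Field K] [Group Γ] {s : LogPoint K Γ}
    (C : LogTheory s) : Prop :=
  ∀ X m (a : ℤ) (S : Submodule K (C.H X m).V), (C.H X m).IsPart a S →
    ∃ (Y : C.Obj) (n j : ℤ), a + n = 2 * j ∧ (∀ y, (C.H Y n).N y = 0) ∧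
      (C.ext Y n X m).HasInvariant S j

/-- The log `ℓ`-adic cohomology of the projective vertical log smooth schemes over the
standard log point `s`, with the known theorems on it which are used here, the log Tate curve and the
algebraic classes. -/
structure LogCohomology {K Γ : Type} [Field K] [Group Γ] (s : LogPoint K Γ) extends
    LogTheory s where
  good : toLogTheory.GoodPartners
  /-- The log Tate curve `E`. -/
  E : Obj
  dim_E : (1 : ℤ) + 1 = 2 * (dim E : ℤ)
  e : TateBasis (H E 1)
  /-- The `ℚ_ℓ`-linear combinations in `H^i(X)(j)`, `i = 2 j`, of the Chern classes of the elements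
  of `gr^j K_{0,lim}(X)`. -/
  alg : ∀ X i, ℤ → Submodule K (H X i).V
  alg_inv : ∀ X i j z, z ∈ alg X i j → (H X i).IsInvariant j z

namespace LogCohomology

variable {K Γ : Type} [Field K] [Group Γ] {s : LogPoint K Γ} (C : LogCohomology s)

/-- `E ^ t × X`. -/
def pow : ℕ → C.Obj → C.Obj
  | 0, X => X
  | t + 1, X => pow t (C.prod C.E X)

/-- `deg t m = t + m`. -/
def deg : ℕ → ℤ → ℤ
  | 0, m => m
  | t + 1, m => deg t (1 + m)

/-- The map `H^{1+m}(E × X) → H^m(X)`: `z` acts as a correspondence on the class `e 0` in `H^1(E)`,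
that is, the Künneth component of `z` in `H^1(E) ⊗ H^m(X) = Hom(H^1(E)(1), H^m(X))` is evaluated at
`e 0`. -/
noncomputable def step (X : C.Obj) (m : ℤ) (z : (C.H (C.prod C.E X) (1 + m)).V) : (C.H X m).V :=
  (C.act C.E 1 1 X m C.dim_E).map z (C.e.e 0)

/-- The map `H^{t+m}(E ^ t × X) → H^m(X)`: the Künneth component in `H^1(E) ^ {⊗ t} ⊗ H^m(X) =
Hom(H^1(E) ^ {⊗ t}(t), H^m(X))`, followed by the evaluation at `e 0 ⊗ ... ⊗ e 0`. -/
noncomputable def phi : (t : ℕ) → (X : C.Obj) → (m : ℤ) → (C.H (C.pow t X) (deg t m)).V → (C.H X m).V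
  | 0, _, _, z => z
  | t + 1, X, m, z => C.step X m (phi t (C.prod C.E X) (1 + m) z)

/-- Question Q1 for all `X`, `m`, `r` with `m = 2 r + t`, `t ≥ 0`: every invariant in `H^m(X)(r)` is
the image under `phi` of an algebraic class in `H^{2(m-r)}(E ^ t × X)(m - r)`, `m - r = r + t`. -/
def LogTateCurveConjecture : Prop :=
  ∀ X (m r : ℤ) (t : ℕ), m = 2 * r + t → ∀ v, (C.H X m).IsInvariant r v →
    ∃ z ∈ C.alg (C.pow t X) (deg t m) (r + t), C.phi t X m z = v

/-- The log Tate conjecture in the even degrees (the case `t = 0` of the question): every invariant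
in `H^{2j}(X)(j)` is algebraic. -/
def LogTateConjecture : Prop :=
  ∀ X (i j : ℤ), i = 2 * j → ∀ v, (C.H X i).IsInvariant j v → v ∈ C.alg X i j

/-- The log weight-monodromy conjecture: for all `X`, `m`, `k` the map `N ^ k` is a bijection of the
part of weight `m + k` of `H^m(X)` onto the part of weight `m - k`. -/
def WeightMonodromyConjecture : Prop :=
  ∀ X m, (C.H X m).WeightMonodromy m

end LogCohomology

end Pool.Agent.Y129.LT
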