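import Pool.Agent.Y129.LT.Base

/-!
# Weights
-/

namespace Pool.Agent.Y129.LT

open Polynomial Module

theorem intertwine {K V V' : Type} [Field K] [AddCommGroup V] [Module K V] [AddCommGroup V']
    [Module K V'] {A : End K V} {B : End K V'} {f : V →ₗ[K] V'} (h : ∀ v, f (A v) = B (f v))
    (P : K[X]) (v : V) : f (aeval A P v) = aeval B P (f v) := by
  induction P using Polynomial.induction_on' generalizing v with
  | add p r hp hr => rw [map_add, map_add, LinearMap.add_apply, LinearMap.add_apply, map_add, hp, hr]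
  | monomial n a =>
    rw [aeval_monomial, aeval_monomial, Module.End.mul_apply, Module.End.mul_apply,
      Module.algebraMap_end_apply, Module.algebraMap_end_apply, map_smul]
    congr 1
    induction n generalizing v with
    | zero => rfl
    | succ n ih => rw [pow_succ, pow_succ, Module.End.mul_apply, Module.End.mul_apply, ih, h]

theorem zpow_inj' {q : ℕ} (hq : 1 < q) {w w' : ℤ} (h : (q : ℝ) ^ w = (q : ℝ) ^ w') : w = w' := by
  have hq' : (1 : ℝ) < q := by exact_mod_cast hq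
  exact zpow_right_injective₀ (by positivity) hq'.ne' h

variable {K Γ V V' : Type} [Field K] [CharZero K] [Group Γ] [AddCommGroup V] [Module K V]
  [AddCommGroup V'] [Module K V'] {q : ℕ} {ρ : Representation K Γ V} {ρ' : Representation K Γ V'}
  {Fr : Γ}

/-- `Fr` has only the weight `w` on the orbit of `v`. -/
def HasWeight (q : ℕ) (ρ : Representation K Γ V) (Fr : Γ) (w : ℤ) (v : V) : Prop :=
  ∃ P : Polynomial ℚ, P ≠ 0 ∧ (∀ α : ℂ, Polynomial.aeval α P = 0 → ‖α‖ ^ 2 = (q : ℝ) ^ w) ∧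
    ∀ g : Γ, Polynomial.aeval (ρ Fr) (P.map (algebraMap ℚ K)) (ρ g v) = 0

/-- The part of weight `w` of a representation `ρ` of the Weil group, `Fr` a Frobenius element. -/
def weightSpace (q : ℕ) (ρ : Representation K Γ V) (Fr : Γ) (w : ℤ) : Submodule K V where
  carrier := {v | HasWeight q ρ Fr w v}
  zero_mem' := ⟨1, one_ne_zero, fun α h => by simp at h, fun g => by rw [map_zero, map_zero]⟩
  add_mem' := by
    rintro u v ⟨P, hP0, hP, hP2⟩ ⟨Q, hQ0, hQ, hQ2⟩
    refine ⟨P * Q, mul_ne_zero hP0 hQ0, fun α h => ?_, fun g => ?_⟩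
    · rw [map_mul] at h
      rcases mul_eq_zero.1 h with h | h
      · exact hP α h
      · exact hQ α h
    · rw [map_add, map_add]
      have h1 : Polynomial.aeval (ρ Fr) ((P * Q).map (algebraMap ℚ K)) (ρ g u) = 0 := by
        rw [mul_comm, Polynomial.map_mul, map_mul, Module.End.mul_apply, hP2, map_zero]
      have h2 : Polynomial.aeval (ρ Fr) ((P * Q).map (algebraMap ℚ K)) (ρ g v) = 0 := by
        rw [Polynomial.map_mul, map_mul, Module.End.mul_apply, hQ2, map_zero]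
      rw [h1, h2, add_zero]
  smul_mem' := by
    rintro a v ⟨P, hP0, hP, hP2⟩
    exact ⟨P, hP0, hP, fun g => by rw [map_smul, map_smul, hP2, smul_zero]⟩

/-- Coprime polynomials kill only the zero vector. -/
theorem eq_zero_of_coprime {A : End K V} {P Q : ℚ[X]}
    (h : ∀ α : ℂ, aeval α P ≠ 0 ∨ aeval α Q ≠ 0) {v : V}
    (hP : aeval A (P.map (algebraMap ℚ K)) v = 0) (hQ : aeval A (Q.map (algebraMap ℚ K)) v = 0) :
    v = 0 := by
  obtain ⟨a, b, hab⟩ := (Polynomial.isCoprime_iff_aeval_ne_zero_of_isAlgClosed ℚ ℂ P Q).2 h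
  have h1 : aeval A ((a * P + b * Q).map (algebraMap ℚ K)) v = v := by
    rw [hab, Polynomial.map_one, map_one, Module.End.one_apply]
  rw [← h1, Polynomial.map_add, map_add, Polynomial.map_mul, Polynomial.map_mul, map_mul, map_mul,
    LinearMap.add_apply, Module.End.mul_apply, Module.End.mul_apply, hP, hQ, map_zero, map_zero,
    add_zero]

theorem HasWeight.one {w : ℤ} {v : V} (h : HasWeight q ρ Fr w v) : ∃ P : ℚ[X], P ≠ 0 ∧
    (∀ α : ℂ, aeval α P = 0 → ‖α‖ ^ 2 = (q : ℝ) ^ w) ∧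
    aeval (ρ Fr) (P.map (algebraMap ℚ K)) v = 0 := by
  obtain ⟨P, h0, h1, h2⟩ := h
  refine ⟨P, h0, h1, ?_⟩
  have h3 := h2 1
  rwa [map_one, Module.End.one_apply] at h3

theorem weightSpace_stable {w : ℤ} {v : V} (h : v ∈ weightSpace q ρ Fr w) (g : Γ) :
    ρ g v ∈ weightSpace q ρ Fr w := by
  obtain ⟨P, h0, h1, h2⟩ := h
  refine ⟨P, h0, h1, fun g' => ?_⟩
  have h3 := h2 (g' * g)
  rwa [map_mul, Module.End.mul_apply] at h3

/-- The vectors killed by a polynomial in `A` without roots `α` with `|α| ^ 2 = q ^ w`. -/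
def offWeight (q : ℕ) (A : End K V) (w : ℤ) : Submodule K V where
  carrier := {v | ∃ P : ℚ[X], (∀ α : ℂ, aeval α P = 0 → ‖α‖ ^ 2 ≠ (q : ℝ) ^ w) ∧
    aeval A (P.map (algebraMap ℚ K)) v = 0}
  zero_mem' := ⟨1, fun α h => by simp at h, by rw [map_zero]⟩
  add_mem' := by
    rintro u v ⟨P, hP, hP2⟩ ⟨Q, hQ, hQ2⟩
    refine ⟨P * Q, fun α h => ?_, ?_⟩
    · rw [map_mul] at h
      rcases mul_eq_zero.1 h with h | h
      · exact hP α h
      · exact hQ α h
    · rw [map_add]
      have h1 : Polynomial.aeval A ((P * Q).map (algebraMap ℚ K)) u = 0 := by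
        rw [mul_comm, Polynomial.map_mul, map_mul, Module.End.mul_apply, hP2, map_zero]
      have h2 : Polynomial.aeval A ((P * Q).map (algebraMap ℚ K)) v = 0 := by
        rw [Polynomial.map_mul, map_mul, Module.End.mul_apply, hQ2, map_zero]
      rw [h1, h2, add_zero]
  smul_mem' := by
    rintro a v ⟨P, hP, hP2⟩
    exact ⟨P, hP, by rw [map_smul, hP2, smul_zero]⟩

theorem weightSpace_le_offWeight (hq : 1 < q) {w w' : ℤ} (h : w' ≠ w) :
    weightSpace q ρ Fr w' ≤ offWeight q (ρ Fr) w := by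
  intro v hv
  obtain ⟨P, _, h1, h2⟩ := HasWeight.one hv
  exact ⟨P, fun α hα h3 => h (zpow_inj' hq ((h1 α hα).symm.trans h3)), h2⟩

theorem weightSpace_indep (hq : 1 < q) : iSupIndep (weightSpace q ρ Fr) := by
  intro w
  rw [Submodule.disjoint_def]
  intro v hv hv'
  have h1 : (⨆ (j) (_ : j ≠ w), weightSpace q ρ Fr j) ≤ offWeight q (ρ Fr) w :=
    iSup₂_le fun j hj => weightSpace_le_offWeight hq hj
  obtain ⟨Q, hQ, hQ2⟩ := h1 hv'
  obtain ⟨P, _, hP, hP2⟩ := HasWeight.one hv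
  refine eq_zero_of_coprime (fun α => ?_) hP2 hQ2
  by_contra hne
  push Not at hne
  exact hQ α hne.2 (hP α hne.1)

/-- An equivariant map `N : V → V(-1)` lowers the weights by two. -/
theorem weightSpace_N (hq : 1 < q) {c : Γ →* Kˣ} (hc : (c Fr : K) = q) {N : V →ₗ[K] V}
    (hN : ∀ g x, N (ρ g x) = (c g : K) • ρ g (N x)) {w : ℤ} {v : V}
    (h : v ∈ weightSpace q ρ Fr w) : N v ∈ weightSpace q ρ Fr (w - 2) := by
  obtain ⟨P, h0, h1, h2⟩ := h
  have hq0 : (q : ℚ) ≠ 0 := by exact_mod_cast (by omega : q ≠ 0)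
  have hd : (C (q : ℚ) * X).natDegree = 1 := by rw [natDegree_C_mul_X _ hq0]
  refine ⟨P.comp (C (q : ℚ) * X), fun h3 => h0 ?_, fun α hα => ?_, fun g => ?_⟩
  · rcases (comp_eq_zero_iff.1 h3) with h3 | ⟨_, h3⟩
    · exact h3
    · rw [h3, natDegree_C] at hd
      exact absurd hd (by norm_num)
  · rw [aeval_comp, map_mul, aeval_C, aeval_X] at hα
    have h3 := h1 _ hα
    rw [norm_mul, mul_pow] at h3
    have h4 : ‖(algebraMap ℚ ℂ) (q : ℚ)‖ = q := by
      rw [map_natCast, Complex.norm_natCast]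
    rw [h4] at h3
    have hq1 : (q : ℝ) ≠ 0 := by exact_mod_cast (by omega : q ≠ 0)
    rw [zpow_sub₀ hq1, eq_div_iff (zpow_ne_zero _ hq1), ← h3]
    rw [show (2 : ℤ) = ((2 : ℕ) : ℤ) from rfl, zpow_natCast, mul_comm]
  · have h3 : aeval (ρ Fr) ((P.comp (C (q : ℚ) * X)).map (algebraMap ℚ K)) =
        aeval ((q : K) • ρ Fr) (P.map (algebraMap ℚ K)) := by
      rw [Polynomial.map_comp, aeval_comp, Polynomial.map_mul, map_mul, map_C, map_X, aeval_X,
        aeval_C, map_natCast, Algebra.smul_def]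
    rw [h3]
    have h4 : ∀ v, N (ρ Fr v) = ((q : K) • ρ Fr) (N v) := fun v => by
      rw [hN, hc, LinearMap.smul_apply]
    have h5 : ρ g (N v) = (c g : K)⁻¹ • N (ρ g v) := by
      rw [hN, smul_smul, inv_mul_cancel₀ (Units.ne_zero _), one_smul]
    rw [h5, map_smul, ← intertwine h4, h2, map_zero, smul_zero]

theorem weightSpace_N_pow (hq : 1 < q) {c : Γ →* Kˣ} (hc : (c Fr : K) = q) {N : V →ₗ[K] V}
    (hN : ∀ g x, N (ρ g x) = (c g : K) • ρ g (N x)) {w : ℤ} {v : V}
    (h : v ∈ weightSpace q ρ Fr w) (k : ℕ) : (N ^ k) v ∈ weightSpace q ρ Fr (w - 2 * k) := by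
  induction k with
  | zero => simpa using h
  | succ k ih =>
    rw [pow_succ', Module.End.mul_apply]
    have h1 := weightSpace_N hq hc hN ih
    have h2 : w - 2 * ((k + 1 : ℕ) : ℤ) = w - 2 * k - 2 := by push_cast; ring
    rwa [h2]

omit [CharZero K] in
theorem N_pow_rho {c : Γ →* Kˣ} {N : V →ₗ[K] V}
    (hN : ∀ g x, N (ρ g x) = (c g : K) • ρ g (N x)) (k : ℕ) (g : Γ) (x : V) :
    (N ^ k) (ρ g x) = ((c g : K) ^ k) • ρ g ((N ^ k) x) := by
  induction k with
  | zero => simp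
  | succ k ih =>
    rw [pow_succ', Module.End.mul_apply, ih, map_smul, hN, smul_smul, pow_succ, Module.End.mul_apply]

/-- The invariants in the twist `r` are of weight `2 r`. -/
theorem weightSpace_tate {c : Γ →* Kˣ} (hc : (c Fr : K) = q) {r : ℤ} {v : V}
    (h : ∀ g, ρ g v = ((c g ^ r : Kˣ) : K) • v) : v ∈ weightSpace q ρ Fr (2 * r) := by
  have hq0 : (q : K) ≠ 0 := by rw [← hc]; exact Units.ne_zero _
  have hq : q ≠ 0 := by rintro rfl; simp at hq0
  refine ⟨X - C ((q : ℚ) ^ r), X_sub_C_ne_zero _, fun α hα => ?_, fun g => ?_⟩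
  · rw [map_sub, aeval_X, aeval_C, sub_eq_zero] at hα
    rw [hα, map_zpow₀, map_natCast, norm_zpow, Complex.norm_natCast, mul_comm, zpow_mul]
    rfl
  · rw [Polynomial.map_sub, map_X, map_C, map_sub, aeval_X, aeval_C, LinearMap.sub_apply,
      Module.algebraMap_end_apply, ← Module.End.mul_apply, ← map_mul, h, h, map_mul, sub_eq_zero,
      smul_smul]
    congr 1
    rw [map_zpow₀, map_natCast, ← hc, mul_zpow]
    push_cast
    ring

/-- The polynomial `T ^ n P(Q / T)`, `n` the degree of `P`. -/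
noncomputable def dualPoly (P : ℚ[X]) (Q : ℚ) : ℚ[X] :=
  ∑ i ∈ Finset.range (P.natDegree + 1), C (P.coeff i * Q ^ i) * X ^ (P.natDegree - i)

theorem aeval_dualPoly {P : ℚ[X]} {Q : ℚ} {α : ℂ} (hα : α ≠ 0) :
    aeval α (dualPoly P Q) = α ^ P.natDegree * aeval ((Q : ℂ) / α) P := by
  rw [dualPoly, map_sum, aeval_eq_sum_range, Finset.mul_sum]
  refine Finset.sum_congr rfl fun i hi => ?_
  have hi' : i ≤ P.natDegree := Nat.lt_succ_iff.1 (Finset.mem_range.1 hi)
  rw [map_mul, aeval_C, map_pow, aeval_X, map_mul, map_pow, Algebra.smul_def, div_pow]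
  have h1 : α ^ P.natDegree = α ^ (P.natDegree - i) * α ^ i := by
    rw [← pow_add, Nat.sub_add_cancel hi']
  rw [h1]
  have h2 : (algebraMap ℚ ℂ) Q = (Q : ℂ) := rfl
  rw [h2]
  field_simp

theorem dualPoly_zero {P : ℚ[X]} (hP : P ≠ 0) {Q : ℚ} (hQ : Q ≠ 0) :
    aeval (0 : ℂ) (dualPoly P Q) ≠ 0 := by
  rw [dualPoly, map_sum, Finset.sum_eq_single P.natDegree]
  · rw [map_mul, aeval_C, Nat.sub_self, pow_zero, map_one, mul_one]
    intro h
    have h1 := (algebraMap ℚ ℂ).injective (h.trans (map_zero _).symm)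
    rcases mul_eq_zero.1 h1 with h1 | h1
    · exact hP (leadingCoeff_eq_zero.1 h1)
    · exact pow_ne_zero _ hQ h1
  · intro i hi hne
    have hi' : i ≤ P.natDegree := Nat.lt_succ_iff.1 (Finset.mem_range.1 hi)
    rw [map_mul, map_pow, aeval_X, zero_pow (by omega), mul_zero]
  · intro h
    exact absurd (Finset.mem_range.2 (Nat.lt_succ_self _)) h

/-- The parts of weights `w` and `w'` are orthogonal for a pairing with values in `K(-d)`, if
`w + w' ≠ 2 d`. -/
theorem weight_orth (hq : 1 < q) {d : ℤ} {B : V →ₗ[K] V' →ₗ[K] K}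
    (hB : ∀ x y, B (ρ Fr x) (ρ' Fr y) = (q : K) ^ d * B x y) {w w' : ℤ} (hw : w + w' ≠ 2 * d)
    {x : V} (hx : x ∈ weightSpace q ρ Fr w) {y : V'} (hy : y ∈ weightSpace q ρ' Fr w') :
    B x y = 0 := by
  obtain ⟨P, hP0, hP, hPx⟩ := HasWeight.one hx
  obtain ⟨R, hR0, hR, hRy⟩ := HasWeight.one hy
  have hq0 : (q : ℚ) ≠ 0 := by exact_mod_cast (by omega : q ≠ 0)
  have hqK : (q : K) ≠ 0 := by exact_mod_cast (by omega : q ≠ 0)
  have hqR : (q : ℝ) ≠ 0 := by exact_mod_cast (by omega : q ≠ 0)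
  set Q : ℚ := (q : ℚ) ^ d with hQ
  have hQ0 : Q ≠ 0 := zpow_ne_zero _ hq0
  have hpow : ∀ (i : ℕ) (x : V) (y : V'), B ((ρ Fr ^ i) x) ((ρ' Fr ^ i) y) =
      ((q : K) ^ d) ^ i * B x y := by
    intro i
    induction i with
    | zero => intro x y; simp
    | succ i ih =>
      intro x y
      rw [pow_succ, pow_succ, Module.End.mul_apply, Module.End.mul_apply, ih, hB, pow_succ]
      ring
  -- the dual polynomial
  have h1 : ∀ y : V', B ((ρ Fr ^ P.natDegree) x)
      (aeval (ρ' Fr) ((dualPoly P Q).map (algebraMap ℚ K)) y) = 0 := by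
    intro y
    have h2 : aeval (ρ' Fr) ((dualPoly P Q).map (algebraMap ℚ K)) y =
        ∑ i ∈ Finset.range (P.natDegree + 1), (algebraMap ℚ K (P.coeff i * Q ^ i)) •
          (ρ' Fr ^ (P.natDegree - i)) y := by
      rw [dualPoly, Polynomial.map_sum, map_sum, LinearMap.sum_apply]
      refine Finset.sum_congr rfl fun i _ => ?_
      rw [Polynomial.map_mul, map_C, Polynomial.map_pow, map_X, map_mul, aeval_C, map_pow, aeval_X,
        Module.End.mul_apply, Module.algebraMap_end_apply]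
    rw [h2, map_sum]
    have h3 : aeval (ρ Fr) (P.map (algebraMap ℚ K)) x =
        ∑ i ∈ Finset.range (P.natDegree + 1), (algebraMap ℚ K (P.coeff i)) • (ρ Fr ^ i) x := by
      rw [aeval_eq_sum_range, natDegree_map, LinearMap.sum_apply]
      refine Finset.sum_congr rfl fun i _ => ?_
      rw [LinearMap.smul_apply, coeff_map]
    have h4 : B (aeval (ρ Fr) (P.map (algebraMap ℚ K)) x) y = 0 := by
      rw [hPx, map_zero, LinearMap.zero_apply]
    rw [h3, map_sum, LinearMap.sum_apply] at h4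
    have h5 : ∀ i ∈ Finset.range (P.natDegree + 1), B ((ρ Fr ^ P.natDegree) x)
        ((algebraMap ℚ K (P.coeff i * Q ^ i)) • (ρ' Fr ^ (P.natDegree - i)) y) =
        ((q : K) ^ d) ^ P.natDegree * (B ((algebraMap ℚ K (P.coeff i)) • (ρ Fr ^ i) x)) y := by
      intro i hi
      have hi' : i ≤ P.natDegree := Nat.lt_succ_iff.1 (Finset.mem_range.1 hi)
      have h6 : (ρ Fr ^ P.natDegree) x = (ρ Fr ^ (P.natDegree - i)) ((ρ Fr ^ i) x) := by
        rw [← Module.End.mul_apply, ← pow_add, Nat.sub_add_cancel hi']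
      rw [h6, map_smul, hpow, map_smul, LinearMap.smul_apply, smul_eq_mul, smul_eq_mul, map_mul,
        map_pow, hQ, map_zpow₀, map_natCast]
      have h7 : ((q : K) ^ d) ^ P.natDegree = ((q : K) ^ d) ^ i * ((q : K) ^ d) ^ (P.natDegree - i) := by
        rw [← pow_add, Nat.add_sub_cancel' hi']
      rw [h7]
      ring
    rw [Finset.sum_congr rfl h5, ← Finset.mul_sum, h4, mul_zero]
  -- coprimality
  have h2 : ∀ α : ℂ, aeval α R ≠ 0 ∨ aeval α (dualPoly P Q) ≠ 0 := by
    intro α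
    by_contra hne
    push Not at hne
    obtain ⟨ha, hb⟩ := hne
    have hα : α ≠ 0 := by
      rintro rfl
      exact dualPoly_zero hP0 hQ0 hb
    rw [aeval_dualPoly hα] at hb
    have h3 := hP _ ((mul_eq_zero.1 hb).resolve_left (pow_ne_zero _ hα))
    have h4 := hR _ ha
    have h5 : ‖(Q : ℂ)‖ = (q : ℝ) ^ d := by
      rw [hQ]
      push_cast
      rw [norm_zpow, Complex.norm_natCast]
    rw [norm_div, div_pow, h4, h5] at h3
    rw [div_eq_iff (zpow_ne_zero _ hqR), ← zpow_add₀ hqR, ← zpow_natCast, ← zpow_mul] at h3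
    have h6 := zpow_inj' hq h3
    apply hw
    rw [← h6]
    push_cast
    ring
  obtain ⟨a, b, hab⟩ := (Polynomial.isCoprime_iff_aeval_ne_zero_of_isAlgClosed ℚ ℂ _ _).2 h2
  have hyR : ∀ u : V', aeval (ρ' Fr) (R.map (algebraMap ℚ K)) u = 0 →
      B ((ρ Fr ^ P.natDegree) x) u = 0 := by
    intro u hu
    have h4 : aeval (ρ' Fr) ((dualPoly P Q).map (algebraMap ℚ K))
        (aeval (ρ' Fr) (b.map (algebraMap ℚ K)) u) = u := by
      have h4 : aeval (ρ' Fr) ((a * R + b * dualPoly P Q).map (algebraMap ℚ K)) u = u := by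
        rw [hab, Polynomial.map_one, map_one, Module.End.one_apply]
      rw [Polynomial.map_add, map_add, Polynomial.map_mul, map_mul, LinearMap.add_apply,
        Module.End.mul_apply, hu, map_zero, zero_add, mul_comm, Polynomial.map_mul, map_mul,
        Module.End.mul_apply] at h4
      exact h4
    rw [← h4]
    exact h1 _
  have h4 := hpow P.natDegree x y
  rw [hyR] at h4
  · exact (mul_eq_zero.1 h4.symm).resolve_left (pow_ne_zero _ (zpow_ne_zero _ hqK))
  · have h5 : ∀ v, (ρ' Fr ^ P.natDegree) (ρ' Fr v) = ρ' Fr ((ρ' Fr ^ P.natDegree) v) := fun v => by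
      rw [← Module.End.mul_apply, ← Module.End.mul_apply, ← pow_succ, ← pow_succ']
    rw [← intertwine h5, hRy, map_zero]

end Pool.Agent.Y129.LT
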